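import Mathlib

/-!
The transfinite diameter (logarithmic capacity) of a compact plane set: definition, Fekete's
monotonicity, and a lower bound for sets which contain a segment.
-/

open Filter
open scoped Topology

namespace Pool.Agent.Y983.Gef

/-- The `n`-th diameter `d_n(K)`: the supremum over `n` points `z_1, …, z_n` of `K` of
`(∏_{i ≠ j} |z_i - z_j|)^(1/(n(n-1)))`. -/
noncomputable def nDiam (K : Set ℂ) (n : ℕ) : ℝ :=
  ⨆ z : Fin n → K, (∏ i : Fin n, ∏ j ∈ Finset.univ.erase i, ‖(z i : ℂ) - z j‖) ^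
    (1 / ((n : ℝ) * (n - 1)))

/-- The logarithmic capacity (transfinite diameter) `c(K) = inf_{n ≥ 2} d_n(K)`
(`= lim d_n(K)`). -/
noncomputable def cap (K : Set ℂ) : ℝ := ⨅ n : ℕ, nDiam K (n + 2)

/-- the product of all distances -/
noncomputable def VV {n : ℕ} (z : Fin n → ℂ) : ℝ :=
  ∏ i : Fin n, ∏ j ∈ Finset.univ.erase i, ‖z i - z j‖

lemma VV_nonneg {n : ℕ} (z : Fin n → ℂ) : 0 ≤ VV z :=
  Finset.prod_nonneg (fun _ _ => Finset.prod_nonneg (fun _ _ => norm_nonneg _))

lemma VV_le {n : ℕ} {z : Fin n → ℂ} {D : ℝ} (hD : 1 ≤ D) (h : ∀ i j, ‖z i - z j‖ ≤ D) :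
    VV z ≤ D ^ (n * n) := by
  unfold VV
  calc ∏ i : Fin n, ∏ j ∈ Finset.univ.erase i, ‖z i - z j‖
      ≤ ∏ _i : Fin n, D ^ n := by
        refine Finset.prod_le_prod (fun i _ => Finset.prod_nonneg (fun _ _ => norm_nonneg _))
          (fun i _ => ?_)
        calc ∏ j ∈ Finset.univ.erase i, ‖z i - z j‖ ≤ ∏ _j ∈ Finset.univ.erase i, D :=
              Finset.prod_le_prod (fun _ _ => norm_nonneg _) (fun j _ => h i j)
          _ = D ^ (Finset.univ.erase i).card := by rw [Finset.prod_const]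
          _ ≤ D ^ n := by
              apply pow_le_pow_right₀ hD
              calc (Finset.univ.erase i).card ≤ (Finset.univ : Finset (Fin n)).card :=
                    Finset.card_le_card (Finset.erase_subset _ _)
                _ = n := by simp
    _ = D ^ (n * n) := by
        rw [Finset.prod_const, Finset.card_univ, Fintype.card_fin, ← pow_mul]

lemma exists_bound {K : Set ℂ} (hK : Bornology.IsBounded K) :
    ∃ D : ℝ, 1 ≤ D ∧ ∀ z ∈ K, ∀ w ∈ K, ‖z - w‖ ≤ D := by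
  obtain ⟨C, hC⟩ := hK.exists_norm_le
  refine ⟨max 1 (2 * C), le_max_left _ _, fun z hz w hw => ?_⟩
  calc ‖z - w‖ ≤ ‖z‖ + ‖w‖ := norm_sub_le z w
    _ ≤ 2 * C := by linarith [hC z hz, hC w hw]
    _ ≤ _ := le_max_right _ _

lemma bddAbove_nDiam {K : Set ℂ} (hK : Bornology.IsBounded K) {n : ℕ} (hn : 2 ≤ n) :
    BddAbove (Set.range (fun z : Fin n → K => (∏ i : Fin n, ∏ j ∈ Finset.univ.erase i,
      ‖(z i : ℂ) - z j‖) ^ (1 / ((n : ℝ) * (n - 1))))) := by
  obtain ⟨D, hD, h⟩ := exists_bound hK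
  refine ⟨(D ^ (n * n)) ^ (1 / ((n : ℝ) * (n - 1))), ?_⟩
  rintro _ ⟨z, rfl⟩
  have hn' : (2 : ℝ) ≤ n := by exact_mod_cast hn
  have he : 0 ≤ 1 / ((n : ℝ) * (n - 1)) := by
    have : 0 < (n : ℝ) * (n - 1) := by nlinarith
    positivity
  exact Real.rpow_le_rpow (VV_nonneg (fun i => (z i : ℂ)))
    (VV_le hD (fun i j => h _ (z i).2 _ (z j).2)) he

lemma le_nDiam {K : Set ℂ} (hK : Bornology.IsBounded K) {n : ℕ} (hn : 2 ≤ n) (z : Fin n → K) :
    (∏ i : Fin n, ∏ j ∈ Finset.univ.erase i, ‖(z i : ℂ) - z j‖) ^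
      (1 / ((n : ℝ) * (n - 1))) ≤ nDiam K n :=
  le_ciSup (bddAbove_nDiam hK hn) z

lemma nDiam_nonneg (K : Set ℂ) (n : ℕ) : 0 ≤ nDiam K n :=
  Real.iSup_nonneg (fun z => Real.rpow_nonneg (VV_nonneg (fun i => (z i : ℂ))) _)

/-! ### equally spaced points -/

lemma prod_abs (n : ℕ) (i : Fin n) :
    ∏ j ∈ Finset.univ.erase i, |((i : ℕ) : ℝ) - ((j : ℕ) : ℝ)| =
      ((i : ℕ).factorial : ℝ) * ((n - 1 - i : ℕ).factorial : ℝ) := by
  have hi := i.2
  have h1 : ∏ j ∈ Finset.univ.erase i, |((i : ℕ) : ℝ) - ((j : ℕ) : ℝ)| =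
      ∏ j ∈ (Finset.range n).erase (i : ℕ), |((i : ℕ) : ℝ) - (j : ℝ)| := by
    refine Finset.prod_bij (fun j _ => (j : ℕ)) ?_ ?_ ?_ ?_
    · intro a ha
      rw [Finset.mem_erase] at ha ⊢
      exact ⟨fun h => ha.1 (Fin.ext h), Finset.mem_range.2 a.2⟩
    · intro a _ c _ h; exact Fin.ext h
    · intro c hc
      rw [Finset.mem_erase, Finset.mem_range] at hc
      exact ⟨⟨c, hc.2⟩, Finset.mem_erase.2 ⟨fun h => hc.1 (by rw [← h]), Finset.mem_univ _⟩, rfl⟩
    · intro a _; rfl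
  rw [h1]
  have h2 : (Finset.range n).erase (i : ℕ) =
      Finset.range i ∪ (Finset.range (n - 1 - i)).image (fun k => i + 1 + k) := by
    ext k
    simp only [Finset.mem_erase, Finset.mem_range, Finset.mem_union, Finset.mem_image]
    constructor
    · rintro ⟨h3, h4⟩
      rcases lt_or_gt_of_ne h3 with h5 | h5
      · exact Or.inl h5
      · exact Or.inr ⟨k - i - 1, by omega, by omega⟩
    · rintro (h3 | ⟨a, h3, h4⟩)
      · exact ⟨by omega, by omega⟩
      · exact ⟨by omega, by omega⟩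
  have hdisj : Disjoint (Finset.range (i : ℕ))
      ((Finset.range (n - 1 - i)).image (fun k => (i : ℕ) + 1 + k)) := by
    rw [Finset.disjoint_left]
    intro a ha hb
    rw [Finset.mem_image] at hb
    obtain ⟨k, _, hk⟩ := hb
    rw [Finset.mem_range] at ha
    omega
  rw [h2, Finset.prod_union hdisj, Finset.prod_image (fun a _ c _ h => by
    have h' : (i : ℕ) + 1 + a = i + 1 + c := h
    omega)]
  congr 1
  · rw [← Finset.prod_range_reflect, ← Finset.prod_range_add_one_eq_factorial]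
    push_cast
    refine Finset.prod_congr rfl (fun j hj => ?_)
    rw [Finset.mem_range] at hj
    have e : ((i : ℕ) : ℝ) - (((i : ℕ) - 1 - j : ℕ) : ℝ) = j + 1 := by
      have : (i : ℕ) = ((i : ℕ) - 1 - j) + (j + 1) := by omega
      have h3 : ((i : ℕ) : ℝ) = (((i : ℕ) - 1 - j : ℕ) : ℝ) + (j + 1) := by exact_mod_cast this
      rw [h3]; ring_nf
    rw [e, abs_of_nonneg (by positivity)]
  · rw [← Finset.prod_range_add_one_eq_factorial]
    push_cast
    refine Finset.prod_congr rfl (fun j _ => ?_)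
    have e : ((i : ℕ) : ℝ) - ((i : ℕ) + 1 + j) = -(j + 1) := by ring
    rw [e, abs_neg, abs_of_nonneg (by positivity)]

lemma prod_abs_ge (n : ℕ) (i : Fin n) :
    (((n - 1 : ℕ) : ℝ) / (2 * Real.exp 1)) ^ (n - 1) ≤
      ∏ j ∈ Finset.univ.erase i, |((i : ℕ) : ℝ) - ((j : ℕ) : ℝ)| := by
  rw [prod_abs]
  have hi := i.2
  set m := n - 1 with hm
  have him : (i : ℕ) ≤ m := by omega
  have h1 : (m.choose i : ℝ) * (((i : ℕ).factorial : ℝ) * ((m - i : ℕ).factorial : ℝ)) =
      m.factorial := by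
    have := Nat.choose_mul_factorial_mul_factorial him
    rw [← this]; push_cast; ring
  have h2 : (m.choose i : ℝ) ≤ 2 ^ m := by exact_mod_cast Nat.choose_le_two_pow m i
  have h3 := Real.pow_div_factorial_le_exp (m : ℝ) (Nat.cast_nonneg m) m
  have h4 : (0 : ℝ) < m.factorial := by positivity
  rw [div_le_iff₀ h4] at h3
  have h5 : (0 : ℝ) ≤ ((i : ℕ).factorial : ℝ) * ((m - i : ℕ).factorial : ℝ) := by positivity
  rw [div_pow, div_le_iff₀ (by positivity), mul_pow]
  calc (m : ℝ) ^ m ≤ Real.exp m * m.factorial := h3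
    _ = Real.exp m * ((m.choose i : ℝ) *
        (((i : ℕ).factorial : ℝ) * ((m - i : ℕ).factorial : ℝ))) := by rw [h1]
    _ ≤ Real.exp m * (2 ^ m * (((i : ℕ).factorial : ℝ) * ((m - i : ℕ).factorial : ℝ))) := by
        gcongr
    _ = _ := by
        rw [← Real.exp_nat_mul, mul_one]
        ring

/-- the capacity of a bounded set which contains a vertical segment of length `ℓ` -/
theorem cap_ge {K : Set ℂ} (hK : Bornology.IsBounded K) {x ℓ : ℝ} (hℓ : 0 < ℓ)
    (h : ∀ y : ℝ, |y| ≤ ℓ / 2 → (x : ℂ) + y * Complex.I ∈ K) :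
    ℓ / (2 * Real.exp 1) ≤ cap K := by
  unfold cap
  refine le_ciInf (fun k => ?_)
  set n := k + 2 with hn
  have hn2 : 2 ≤ n := by omega
  have hn1 : (0 : ℝ) < ((n - 1 : ℕ) : ℝ) := by
    have : 0 < n - 1 := by omega
    exact_mod_cast this
  have hcast : ((n - 1 : ℕ) : ℝ) = (n : ℝ) - 1 := by
    rw [Nat.cast_sub (by omega)]; norm_num
  -- the points
  have hmem : ∀ i : Fin n, (x : ℂ) +
      ((ℓ * ((i : ℕ) : ℝ) / ((n - 1 : ℕ) : ℝ) - ℓ / 2 : ℝ) : ℂ) * Complex.I ∈ K := by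
    intro i
    apply h
    have h1 : ((i : ℕ) : ℝ) ≤ ((n - 1 : ℕ) : ℝ) := by
      have := i.2
      exact_mod_cast (by omega : (i : ℕ) ≤ n - 1)
    have h2 : 0 ≤ ℓ * ((i : ℕ) : ℝ) / ((n - 1 : ℕ) : ℝ) := by positivity
    have h3 : ℓ * ((i : ℕ) : ℝ) / ((n - 1 : ℕ) : ℝ) ≤ ℓ := by
      rw [div_le_iff₀ hn1]
      gcongr
    rw [abs_le]
    constructor <;> linarith
  set z : Fin n → K := fun i => ⟨_, hmem i⟩ with hz
  refine le_trans ?_ (le_nDiam hK hn2 z)
  have hnorm : ∀ i j : Fin n, ‖(z i : ℂ) - z j‖ =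
      ℓ / ((n - 1 : ℕ) : ℝ) * |((i : ℕ) : ℝ) - ((j : ℕ) : ℝ)| := by
    intro i j
    have e : (z i : ℂ) - z j =
        ((ℓ / ((n - 1 : ℕ) : ℝ) * (((i : ℕ) : ℝ) - ((j : ℕ) : ℝ)) : ℝ) : ℂ) * Complex.I := by
      rw [hz]
      simp only
      push_cast
      ring
    rw [e, norm_mul, Complex.norm_I, mul_one, Complex.norm_real, Real.norm_eq_abs, abs_mul,
      abs_of_pos (by positivity)]
  have hprod : (ℓ / (2 * Real.exp 1)) ^ (n * (n - 1)) ≤
      ∏ i : Fin n, ∏ j ∈ Finset.univ.erase i, ‖(z i : ℂ) - z j‖ := by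
    calc (ℓ / (2 * Real.exp 1)) ^ (n * (n - 1)) =
          ∏ _i : Fin n, (ℓ / (2 * Real.exp 1)) ^ (n - 1) := by
          rw [Finset.prod_const, Finset.card_univ, Fintype.card_fin, ← pow_mul,
            mul_comm n (n - 1)]
      _ ≤ _ := by
          refine Finset.prod_le_prod (fun i _ => by positivity) (fun i _ => ?_)
          simp_rw [hnorm]
          rw [Finset.prod_mul_distrib, Finset.prod_const, Finset.card_erase_of_mem
            (Finset.mem_univ i), Finset.card_univ, Fintype.card_fin]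
          calc (ℓ / (2 * Real.exp 1)) ^ (n - 1) = (ℓ / ((n - 1 : ℕ) : ℝ)) ^ (n - 1) *
                (((n - 1 : ℕ) : ℝ) / (2 * Real.exp 1)) ^ (n - 1) := by
                rw [← mul_pow]; congr 1; field_simp
            _ ≤ _ := by
                apply mul_le_mul_of_nonneg_left (prod_abs_ge n i) (by positivity)
  have hpos : 0 < (n : ℝ) * (n - 1) := by
    rw [← hcast]
    have : (0 : ℝ) < n := by exact_mod_cast (by omega : 0 < n)
    positivity
  calc ℓ / (2 * Real.exp 1) = ((ℓ / (2 * Real.exp 1)) ^ (n * (n - 1))) ^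
        (1 / ((n : ℝ) * (n - 1))) := by
        rw [← Real.rpow_natCast, ← Real.rpow_mul (by positivity)]
        push_cast
        rw [hcast, mul_one_div_cancel hpos.ne', Real.rpow_one]
    _ ≤ _ := Real.rpow_le_rpow (by positivity) hprod (by positivity)

/-! ### Fekete: the `n`-th diameters decrease -/

open Classical in
lemma VV_eq {n : ℕ} (z : Fin n → ℂ) :
    VV z = ∏ i : Fin n, ∏ j : Fin n, (if i = j then 1 else ‖z i - z j‖) := by
  unfold VV
  refine Finset.prod_congr rfl (fun i _ => ?_)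
  rw [← Finset.mul_prod_erase Finset.univ _ (Finset.mem_univ i), if_pos rfl, one_mul]
  refine Finset.prod_congr rfl (fun j hj => ?_)
  rw [if_neg (fun h => (Finset.mem_erase.1 hj).1 h.symm)]

open Classical in
lemma VV_succAbove {n : ℕ} (z : Fin (n + 1) → ℂ) (k : Fin (n + 1)) :
    VV (fun i => z (k.succAbove i)) = ∏ i : Fin (n + 1), ∏ j : Fin (n + 1),
      (if i = k ∨ j = k then 1 else (if i = j then 1 else ‖z i - z j‖)) := by
  rw [VV_eq, Fin.prod_univ_succAbove _ k]
  have h1 : ∏ j : Fin (n + 1),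
      (if k = k ∨ j = k then (1 : ℝ) else (if k = j then 1 else ‖z k - z j‖)) = 1 :=
    Finset.prod_eq_one (fun j _ => by rw [if_pos (Or.inl rfl)])
  rw [h1, one_mul]
  refine Finset.prod_congr rfl (fun i _ => ?_)
  rw [Fin.prod_univ_succAbove _ k, if_pos (Or.inr rfl), one_mul]
  refine Finset.prod_congr rfl (fun j _ => ?_)
  rw [if_neg (c := k.succAbove i = k ∨ k.succAbove j = k)
    (fun h => h.elim (Fin.succAbove_ne k i) (Fin.succAbove_ne k j))]
  by_cases h : i = j
  · rw [if_pos h, if_pos (congrArg _ h)]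
  · rw [if_neg h, if_neg (fun h' => h (Fin.succAbove_right_injective h'))]

lemma VV_pow {n : ℕ} (z : Fin (n + 1) → ℂ) :
    VV z ^ (n - 1) = ∏ k : Fin (n + 1), VV (fun i => z (k.succAbove i)) := by
  classical
  simp_rw [VV_succAbove]
  rw [Finset.prod_comm]
  have h : ∀ i : Fin (n + 1), ∏ k : Fin (n + 1), ∏ j : Fin (n + 1),
      (if i = k ∨ j = k then (1 : ℝ) else (if i = j then 1 else ‖z i - z j‖)) =
      ∏ j : Fin (n + 1), (if i = j then 1 else ‖z i - z j‖) ^ (n - 1) := by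
    intro i
    rw [Finset.prod_comm]
    refine Finset.prod_congr rfl (fun j _ => ?_)
    by_cases hij : i = j
    · rw [if_pos hij, one_pow]
      exact Finset.prod_eq_one (fun k _ => by split_ifs <;> rfl)
    · rw [if_neg hij]
      have hs : ∀ k : Fin (n + 1), (if i = k ∨ j = k then (1 : ℝ) else ‖z i - z j‖) =
          if k ∈ (Finset.univ.erase i).erase j then ‖z i - z j‖ else 1 := by
        intro k
        simp only [Finset.mem_erase, Finset.mem_univ, and_true]
        by_cases h1 : i = k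
        · subst h1; simp
        · by_cases h2 : j = k
          · subst h2; simp
          · rw [if_neg (by tauto), if_pos ⟨fun h => h2 h.symm, fun h => h1 h.symm⟩]
      rw [Finset.prod_congr rfl (fun k _ => hs k), Finset.prod_ite_mem, Finset.univ_inter,
        Finset.prod_const, Finset.card_erase_of_mem, Finset.card_erase_of_mem (Finset.mem_univ _),
        Finset.card_univ, Fintype.card_fin]
      · congr 1
      · rw [Finset.mem_erase]; exact ⟨fun h => hij h.symm, Finset.mem_univ _⟩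
  rw [Finset.prod_congr rfl (fun i _ => h i), VV_eq, ← Finset.prod_pow]
  refine Finset.prod_congr rfl (fun i _ => ?_)
  rw [← Finset.prod_pow]

lemma VV_le_pow {K : Set ℂ} (hK : Bornology.IsBounded K) {n : ℕ} (hn : 2 ≤ n) (z : Fin n → K) :
    VV (fun i => (z i : ℂ)) ≤ nDiam K n ^ (n * (n - 1)) := by
  have h := le_nDiam hK hn z
  have hpos : 0 < (n : ℝ) * (n - 1) := by
    have : (2 : ℝ) ≤ n := by exact_mod_cast hn
    nlinarith
  have h2 := Real.rpow_le_rpow (Real.rpow_nonneg (VV_nonneg (fun i => (z i : ℂ))) _) h hpos.le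
  rw [← Real.rpow_mul (VV_nonneg (fun i => (z i : ℂ))), one_div_mul_cancel hpos.ne',
    Real.rpow_one] at h2
  refine h2.trans (le_of_eq ?_)
  rw [← Real.rpow_natCast]
  congr 1
  rw [Nat.cast_mul, Nat.cast_sub (by omega)]
  norm_num

theorem nDiam_succ_le {K : Set ℂ} (hK : Bornology.IsBounded K) (hne : K.Nonempty) {n : ℕ}
    (hn : 2 ≤ n) : nDiam K (n + 1) ≤ nDiam K n := by
  have : Nonempty K := hne.to_subtype
  unfold nDiam
  refine ciSup_le (fun z => ?_)
  set D := nDiam K n with hD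
  have hD0 : 0 ≤ D := nDiam_nonneg K n
  have h1 := VV_pow (fun i => (z i : ℂ))
  have h2 : ∏ k : Fin (n + 1), VV (fun i => ((z (k.succAbove i) : K) : ℂ)) ≤
      ∏ _k : Fin (n + 1), D ^ (n * (n - 1)) :=
    Finset.prod_le_prod (fun k _ => VV_nonneg _)
      (fun k _ => VV_le_pow hK hn (fun i => z (k.succAbove i)))
  rw [Finset.prod_const, Finset.card_univ, Fintype.card_fin] at h2
  have h3 : VV (fun i => (z i : ℂ)) ^ (n - 1) ≤ (D ^ (n * (n + 1))) ^ (n - 1) := by
    rw [h1]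
    refine h2.trans (le_of_eq ?_)
    rw [← pow_mul, ← pow_mul]
    congr 1
    ring
  have h4 : VV (fun i => (z i : ℂ)) ≤ D ^ (n * (n + 1)) :=
    le_of_pow_le_pow_left₀ (by omega) (by positivity) h3
  have hnr : (2 : ℝ) ≤ n := by exact_mod_cast hn
  have h5 := Real.rpow_le_rpow (z := 1 / (((n + 1 : ℕ) : ℝ) * ((n + 1 : ℕ) - 1)))
    (VV_nonneg (fun i => (z i : ℂ))) h4 (by
      push_cast
      have : 0 < ((n : ℝ) + 1) * (n + 1 - 1) := by nlinarith
      positivity)
  refine h5.trans (le_of_eq ?_)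
  rw [← Real.rpow_natCast, ← Real.rpow_mul hD0]
  push_cast
  have e : (n : ℝ) * (n + 1) * (1 / ((n + 1) * (n + 1 - 1))) = 1 := by
    have : (n : ℝ) ≠ 0 := by linarith
    have h6 : (n : ℝ) + 1 ≠ 0 := by linarith
    rw [add_sub_cancel_right]
    field_simp
  rw [e, Real.rpow_one]
  rfl

/-- **Fekete.** The `n`-th diameters converge to the capacity. -/
theorem tendsto_nDiam {K : Set ℂ} (hK : Bornology.IsBounded K) (hne : K.Nonempty) :
    Tendsto (fun n => nDiam K n) atTop (𝓝 (cap K)) := by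
  have hanti : Antitone (fun k : ℕ => nDiam K (k + 2)) :=
    antitone_nat_of_succ_le (fun k => nDiam_succ_le hK hne (by omega))
  have h := tendsto_atTop_ciInf hanti ⟨0, by rintro _ ⟨k, rfl⟩; exact nDiam_nonneg K _⟩
  exact (tendsto_add_atTop_iff_nat 2).1 h

end Pool.Agent.Y983.Gef
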