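import Mathlib

/-!
Ratios of consecutive monomials `z^m / √(m!)` on a thin annulus.
-/

open Filter
open scoped Topology

namespace Pool.Agent.Y983.Gef

lemma asc_prod (n j : ℕ) : ((n + j).factorial : ℝ) = n.factorial * ∏ i ∈ Finset.range j,
    ((n : ℝ) + 1 + i) := by
  induction j with
  | zero => simp
  | succ j ih =>
    rw [Finset.prod_range_succ, ← mul_assoc, ← ih, ← Nat.add_assoc, Nat.factorial_succ]
    push_cast
    ring

/-- arithmetic progressions: the product of the ends is the smallest -/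
lemma asc_lower (n j : ℕ) :
    (((n : ℝ) + 1) * (n + j)) ^ j * (n.factorial : ℝ) ^ 2 ≤ ((n + j).factorial : ℝ) ^ 2 := by
  rw [asc_prod, mul_pow (n.factorial : ℝ) _ 2, mul_comm]
  have h : (∏ i ∈ Finset.range j, ((n : ℝ) + 1 + i)) ^ 2 =
      ∏ i ∈ Finset.range j, (((n : ℝ) + 1 + i) * (n + 1 + (j - 1 - i : ℕ))) := by
    rw [sq, Finset.prod_mul_distrib]
    congr 1
    exact (Finset.prod_range_reflect (fun i => (n : ℝ) + 1 + i) j).symm
  rw [h]
  have h2 : (((n : ℝ) + 1) * (n + j)) ^ j = ∏ _i ∈ Finset.range j, (((n : ℝ) + 1) * (n + j)) := by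
    rw [Finset.prod_const, Finset.card_range]
  rw [h2]
  apply mul_le_mul_of_nonneg_left _ (by positivity)
  refine Finset.prod_le_prod (fun i _ => by positivity) (fun i hi => ?_)
  rw [Finset.mem_range] at hi
  obtain ⟨k, hk⟩ : ∃ k, j = i + 1 + k := ⟨j - i - 1, by omega⟩
  have e : ((j - 1 - i : ℕ) : ℝ) = k := by
    have : j - 1 - i = k := by omega
    rw [this]
  rw [e, hk]
  push_cast
  have h1 : (0 : ℝ) ≤ i := Nat.cast_nonneg i
  have h3 : (0 : ℝ) ≤ k := Nat.cast_nonneg k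
  nlinarith [mul_nonneg h1 h3]

/-- arithmetic progressions: the product is at most the power of the mean -/
lemma desc_upper (m j : ℕ) :
    ((m + j).factorial : ℝ) ^ 2 ≤ (((m : ℝ) + (m + j) + 1) / 2) ^ (2 * j) *
      (m.factorial : ℝ) ^ 2 := by
  rw [asc_prod, mul_pow, mul_comm]
  have h : (∏ i ∈ Finset.range j, ((m : ℝ) + 1 + i)) ^ 2 =
      ∏ i ∈ Finset.range j, (((m : ℝ) + 1 + i) * (m + 1 + (j - 1 - i : ℕ))) := by
    rw [sq, Finset.prod_mul_distrib]
    congr 1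
    exact (Finset.prod_range_reflect (fun i => (m : ℝ) + 1 + i) j).symm
  rw [h]
  have h2 : (((m : ℝ) + (m + j) + 1) / 2) ^ (2 * j) =
      ∏ _i ∈ Finset.range j, (((m : ℝ) + (m + j) + 1) / 2) ^ 2 := by
    rw [Finset.prod_const, Finset.card_range, ← pow_mul]
  rw [h2]
  apply mul_le_mul_of_nonneg_right _ (by positivity)
  refine Finset.prod_le_prod (fun i _ => by positivity) (fun i hi => ?_)
  rw [Finset.mem_range] at hi
  obtain ⟨k, hk⟩ : ∃ k, j = i + 1 + k := ⟨j - i - 1, by omega⟩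
  have e : ((j - 1 - i : ℕ) : ℝ) = k := by
    have : j - 1 - i = k := by omega
    rw [this]
  rw [e, hk]
  push_cast
  nlinarith [sq_nonneg ((i : ℝ) - k)]

/-- a monomial of higher degree, compared with `z^n / √n!` -/
lemma ratio_up {n j : ℕ} {x R ρ : ℝ} (hx : 0 < x) (hxR : x ^ 2 ≤ R) (hρ : 0 < ρ)
    (h : R ^ (2 * j) ≤ ρ ^ 4 * (((n : ℝ) + 1) * (n + j)) ^ j) :
    x ^ (n + j) / √((n + j).factorial : ℝ) ≤ ρ * (x ^ n / √(n.factorial : ℝ)) := by
  have hn : (0 : ℝ) < n.factorial := by positivity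
  have hnj : (0 : ℝ) < (n + j).factorial := by positivity
  have hsn := Real.sqrt_pos.2 hn
  have hsnj := Real.sqrt_pos.2 hnj
  rw [div_le_iff₀ hsnj]
  have key : x ^ j * √(n.factorial : ℝ) ≤ ρ * √((n + j).factorial : ℝ) := by
    have h4 : (x ^ j * √(n.factorial : ℝ)) ^ 4 ≤ (ρ * √((n + j).factorial : ℝ)) ^ 4 := by
      have e1 : (x ^ j * √(n.factorial : ℝ)) ^ 4 = (x ^ 2) ^ (2 * j) * (n.factorial : ℝ) ^ 2 := by
        rw [mul_pow, ← pow_mul, ← pow_mul]
        congr 1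
        · congr 1; ring
        · rw [show (4 : ℕ) = 2 * 2 by norm_num, pow_mul, Real.sq_sqrt hn.le]
      have e2 : (ρ * √((n + j).factorial : ℝ)) ^ 4 = ρ ^ 4 * ((n + j).factorial : ℝ) ^ 2 := by
        rw [mul_pow]
        congr 1
        rw [show (4 : ℕ) = 2 * 2 by norm_num, pow_mul, Real.sq_sqrt hnj.le]
      rw [e1, e2]
      calc (x ^ 2) ^ (2 * j) * (n.factorial : ℝ) ^ 2 ≤ R ^ (2 * j) * (n.factorial : ℝ) ^ 2 := by
            gcongr
        _ ≤ (ρ ^ 4 * (((n : ℝ) + 1) * (n + j)) ^ j) * (n.factorial : ℝ) ^ 2 := by gcongr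
        _ = ρ ^ 4 * ((((n : ℝ) + 1) * (n + j)) ^ j * (n.factorial : ℝ) ^ 2) := by ring
        _ ≤ _ := by
            gcongr
            exact asc_lower n j
    exact le_of_pow_le_pow_left₀ (by norm_num) (by positivity) h4
  calc x ^ (n + j) = x ^ n * (x ^ j * √(n.factorial : ℝ)) / √(n.factorial : ℝ) := by
        rw [pow_add]; field_simp
    _ ≤ x ^ n * (ρ * √((n + j).factorial : ℝ)) / √(n.factorial : ℝ) := by gcongr
    _ = _ := by ring

/-- a monomial of lower degree, compared with `z^n / √n!`, `n = m + j` -/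
lemma ratio_down {m j : ℕ} {x Q ρ : ℝ} (hx : 0 < x) (hQ : 0 ≤ Q) (hxQ : Q ≤ x ^ 2) (hρ : 0 < ρ)
    (h : (((m : ℝ) + (m + j) + 1) / 2) ^ (2 * j) ≤ ρ ^ 4 * Q ^ (2 * j)) :
    x ^ m / √(m.factorial : ℝ) ≤ ρ * (x ^ (m + j) / √((m + j).factorial : ℝ)) := by
  have hn : (0 : ℝ) < m.factorial := by positivity
  have hnj : (0 : ℝ) < (m + j).factorial := by positivity
  have hsn := Real.sqrt_pos.2 hn
  have hsnj := Real.sqrt_pos.2 hnj
  rw [div_le_iff₀ hsn]
  have key : √((m + j).factorial : ℝ) ≤ ρ * (x ^ j * √(m.factorial : ℝ)) := by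
    have h4 : (√((m + j).factorial : ℝ)) ^ 4 ≤ (ρ * (x ^ j * √(m.factorial : ℝ))) ^ 4 := by
      have e1 : (ρ * (x ^ j * √(m.factorial : ℝ))) ^ 4 =
          ρ ^ 4 * ((x ^ 2) ^ (2 * j) * (m.factorial : ℝ) ^ 2) := by
        rw [mul_pow, mul_pow, ← pow_mul, ← pow_mul]
        congr 2
        · congr 1; ring
        · rw [show (4 : ℕ) = 2 * 2 by norm_num, pow_mul, Real.sq_sqrt hn.le]
      have e2 : (√((m + j).factorial : ℝ)) ^ 4 = ((m + j).factorial : ℝ) ^ 2 := by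
        rw [show (4 : ℕ) = 2 * 2 by norm_num, pow_mul, Real.sq_sqrt hnj.le]
      rw [e1, e2]
      calc ((m + j).factorial : ℝ) ^ 2 ≤ (((m : ℝ) + (m + j) + 1) / 2) ^ (2 * j) *
            (m.factorial : ℝ) ^ 2 := desc_upper m j
        _ ≤ (ρ ^ 4 * Q ^ (2 * j)) * (m.factorial : ℝ) ^ 2 := by gcongr
        _ ≤ (ρ ^ 4 * (x ^ 2) ^ (2 * j)) * (m.factorial : ℝ) ^ 2 := by gcongr
        _ = _ := by ring
    exact le_of_pow_le_pow_left₀ (by norm_num) (by positivity) h4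
  calc x ^ m = x ^ m * √((m + j).factorial : ℝ) / √((m + j).factorial : ℝ) := by
        field_simp
    _ ≤ x ^ m * (ρ * (x ^ j * √(m.factorial : ℝ))) / √((m + j).factorial : ℝ) := by gcongr
    _ = _ := by rw [pow_add]; ring

end Pool.Agent.Y983.Gef
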