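import Pool.Agent.Y983.GefLaw
import Pool.Agent.Y983.GefRatio

/-!
One monomial of the Gaussian entire function dominates on a thin annulus.
-/

open MeasureTheory Filter
open scoped ENNReal NNReal Topology

namespace Pool.Agent.Y983.Gef

/-- `b = 2^(-1/16)` -/
noncomputable def b : ℝ := (1 / 2 : ℝ) ^ (1 / 16 : ℝ)

lemma b_pos : 0 < b := Real.rpow_pos_of_pos (by norm_num) _

lemma b_pow : b ^ 16 = 1 / 2 := by
  rw [b, ← Real.rpow_natCast, ← Real.rpow_mul (by norm_num)]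
  norm_num

lemma b_lt : b < 1 := Real.rpow_lt_one (by norm_num) (by norm_num) (by norm_num)

lemma c_pow : (b ^ 2) ^ 8 = 1 / 2 := by rw [← pow_mul]; exact b_pow

lemma c_lt : b ^ 2 < 1 := pow_lt_one₀ b_pos.le b_lt (by norm_num)

lemma c_gap : 1 / 16 ≤ 1 - b ^ 2 := by
  have h := one_add_mul_le_pow (a := -(1 - b ^ 2)) (by nlinarith [b_pos, c_lt]) 8
  have e : 1 + -(1 - b ^ 2) = b ^ 2 := by ring
  rw [e, c_pow] at h
  push_cast at h
  linarith

lemma c_small {M : ℕ} (hM : 48 ≤ M) : (b ^ 2) ^ M ≤ 1 / 64 := by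
  calc (b ^ 2) ^ M ≤ (b ^ 2) ^ 48 :=
        pow_le_pow_of_le_one (by have := b_pos; positivity) c_lt.le hM
    _ = ((b ^ 2) ^ 8) ^ 6 := pow_mul (b ^ 2) 8 6
    _ = 1 / 64 := by rw [c_pow]; norm_num

/-! ### the three ranges -/

section zones

variable {δ R : ℝ} {n : ℕ}

lemma exp_gap (hδ : 0 < δ) (hδ2 : δ ≤ 1 / 2) : 1 ≤ (1 - δ) * Real.exp (2 * δ) := by
  have h := Real.add_one_le_exp (2 * δ)
  nlinarith

/-- upper side, far from `n` -/
lemma up_far (hδ : 0 < δ) (hδ2 : δ ≤ 1 / 2) (hR : 0 < R) (hn : (1 - δ) * R < n + 1) {j : ℕ}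
    (hj : 3 * δ * R + 1 ≤ j) : R ^ (2 * j) ≤ 1 ^ 4 * (((n : ℝ) + 1) * (n + j)) ^ j := by
  rw [one_pow, one_mul, pow_mul]
  refine pow_le_pow_left₀ (by positivity) ?_ j
  have h1 : (1 + 2 * δ) * R ≤ (n : ℝ) + j := by nlinarith
  have h2 : 0 ≤ (1 - δ) * R := by nlinarith
  calc R ^ 2 ≤ ((1 - δ) * R) * ((1 + 2 * δ) * R) := by nlinarith [mul_pos hδ (mul_pos hR hR)]
    _ ≤ _ := mul_le_mul hn.le h1 (by positivity) (by positivity)

/-- upper side, close to `n` -/
lemma up_near (hδ : 0 < δ) (hδ2 : δ ≤ 1 / 2) (hR : 0 < R) (hn : (1 - δ) * R < n + 1) {j : ℕ}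
    (hj : 1 ≤ j) : R ^ (2 * j) ≤ (Real.exp (δ * j)) ^ 4 * (((n : ℝ) + 1) * (n + j)) ^ j := by
  have hg := exp_gap hδ hδ2
  have h0 : 0 ≤ (1 - δ) * R := by nlinarith
  have hj' : (1 : ℝ) ≤ j := by exact_mod_cast hj
  have e1 : (Real.exp (δ * j)) ^ 4 = (Real.exp (2 * δ) ^ 2) ^ j := by
    rw [← Real.exp_nat_mul, ← Real.exp_nat_mul, ← Real.exp_nat_mul]
    congr 1
    push_cast; ring
  rw [e1, ← mul_pow, pow_mul]
  refine pow_le_pow_left₀ (by positivity) ?_ j
  calc R ^ 2 = 1 * R ^ 2 := by ring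
    _ ≤ ((1 - δ) * Real.exp (2 * δ)) ^ 2 * R ^ 2 := by
        gcongr
        nlinarith
    _ = Real.exp (2 * δ) ^ 2 * (((1 - δ) * R) * ((1 - δ) * R)) := by ring
    _ ≤ _ := by
        gcongr
        linarith

/-- the tail -/
lemma up_tail (hδ2 : δ ≤ 1 / 2) (hR : 0 < R) (hn : (1 - δ) * R < n + 1)
    (hnR : (n : ℝ) ≤ R) {j : ℕ} (hj : 4 * R ≤ n + j) :
    R ^ (2 * j) ≤ (b ^ (3 * (n + j))) ^ 4 * (((n : ℝ) + 1) * (n + j)) ^ j := by
  have h1 : (3 * (n + j) : ℝ) ≤ 4 * j := by linarith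
  have h2 : 3 * (n + j) ≤ 4 * j := by exact_mod_cast h1
  have h3 : (1 / 2 : ℝ) ^ j ≤ (b ^ (3 * (n + j))) ^ 4 := by
    rw [← b_pow, ← pow_mul, ← pow_mul]
    exact pow_le_pow_of_le_one b_pos.le b_lt.le (by omega)
  have h4 : (2 * R ^ 2) ≤ ((n : ℝ) + 1) * (n + j) := by
    have : (1 / 2) * R ≤ (n : ℝ) + 1 := by nlinarith
    calc 2 * R ^ 2 = ((1 / 2) * R) * (4 * R) := by ring
      _ ≤ _ := mul_le_mul this hj (by positivity) (by positivity)
  calc R ^ (2 * j) = (1 / 2 : ℝ) ^ j * (2 * R ^ 2) ^ j := by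
        rw [← mul_pow, pow_mul]; congr 1; ring
    _ ≤ _ := by
        apply mul_le_mul h3 (pow_le_pow_left₀ (by positivity) h4 j) (by positivity)
          (by have := b_pos; positivity)

/-- lower side, far from `n = m + j` -/
lemma down_far (hδ : 0 < δ) (hδ2 : δ ≤ 1 / 2) (hR : 0 < R) {m j : ℕ}
    (hn : ((m + j : ℕ) : ℝ) ≤ (1 - δ) * R) (hj : 3 * δ * R + 1 ≤ j) :
    (((m : ℝ) + (m + j) + 1) / 2) ^ (2 * j) ≤ 1 ^ 4 * ((1 - δ) ^ 2 * R) ^ (2 * j) := by
  rw [one_pow, one_mul]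
  refine pow_le_pow_left₀ (by positivity) ?_ _
  push_cast at hn
  nlinarith [mul_pos hδ hR, mul_pos hδ (mul_pos hδ hR)]

/-- lower side, close to `n = m + j` -/
lemma down_near (hδ : 0 < δ) (hδ2 : δ ≤ 1 / 2) (hR : 0 < R) {m j : ℕ}
    (hn : ((m + j : ℕ) : ℝ) ≤ (1 - δ) * R) (hj : 1 ≤ j) :
    (((m : ℝ) + (m + j) + 1) / 2) ^ (2 * j) ≤
      (Real.exp (δ * j)) ^ 4 * ((1 - δ) ^ 2 * R) ^ (2 * j) := by
  have hg := exp_gap hδ hδ2
  have hj' : (1 : ℝ) ≤ j := by exact_mod_cast hj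
  push_cast at hn
  have e1 : (Real.exp (δ * j)) ^ 4 = (Real.exp (2 * δ)) ^ (2 * j) := by
    rw [← Real.exp_nat_mul, ← Real.exp_nat_mul]
    congr 1
    push_cast; ring
  rw [e1, ← mul_pow]
  refine pow_le_pow_left₀ (by positivity) ?_ _
  have h0 : 0 ≤ (1 - δ) * R := by nlinarith
  calc ((m : ℝ) + (m + j) + 1) / 2 ≤ (m : ℝ) + j := by linarith
    _ ≤ 1 * ((1 - δ) * R) := by linarith
    _ ≤ ((1 - δ) * Real.exp (2 * δ)) * ((1 - δ) * R) := by gcongr
    _ = _ := by ring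

end zones

/-! ### the thresholds -/

section thresholds

variable (δ R : ℝ)

/-- the dominating degree -/
noncomputable def nn : ℕ := ⌊(1 - δ) * R⌋₊

/-- the number of degrees which are treated one by one -/
noncomputable def MM : ℕ := ⌈4 * R⌉₊

/-- the half-width of the window -/
noncomputable def LL : ℝ := 3 * δ * R + 1

/-- `m` lies in the window around `nn` -/
def Near (m : ℕ) : Prop := |(m : ℝ) - nn δ R| ≤ LL δ R

open Classical in
noncomputable def tt (m : ℕ) : ℝ :=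
  if m < MM R then (if Near δ R m then Real.exp (-(δ * LL δ R)) / (4 * MM R)
    else 1 / (4 * MM R)) else (b⁻¹) ^ m

open Classical in
noncomputable def ss (m : ℕ) : ℝ :=
  if m < MM R then 1 / (4 * MM R) else (b ^ 2) ^ m

/-- the box -/
def BB (m : ℕ) : Set ℂ := if m = nn δ R then {w | 1 ≤ ‖w‖} else {w | ‖w‖ ≤ tt δ R m}

variable {δ R}

lemma nn_le (hδ2 : δ ≤ 1 / 2) (hR : 0 < R) : (nn δ R : ℝ) ≤ (1 - δ) * R :=
  Nat.floor_le (by nlinarith)

lemma lt_nn : (1 - δ) * R < (nn δ R : ℝ) + 1 := Nat.lt_floor_add_one _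

lemma MM_ge : 4 * R ≤ (MM R : ℝ) := Nat.le_ceil _

lemma MM_pos (hR : 0 < R) : (0 : ℝ) < MM R := lt_of_lt_of_le (by positivity) MM_ge

/-- domination: all thresholds -/
lemma dom (hδ : 0 < δ) (hδ2 : δ ≤ 1 / 2) (hR : 0 < R) {x : ℝ} (hx : 0 < x) (hxR : x ^ 2 ≤ R)
    (hxQ : (1 - δ) ^ 2 * R ≤ x ^ 2) {m : ℕ} (hm : m ≠ nn δ R) :
    tt δ R m * (x ^ m / √(m.factorial : ℝ)) ≤
      ss R m * (x ^ (nn δ R) / √((nn δ R).factorial : ℝ)) := by
  set n := nn δ R with hn
  have hn1 : (n : ℝ) ≤ (1 - δ) * R := nn_le hδ2 hR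
  have hn2 : (1 - δ) * R < (n : ℝ) + 1 := lt_nn
  have hM := MM_ge (R := R)
  have hM0 := MM_pos hR
  have hnR : (n : ℝ) ≤ R := by nlinarith
  have hA : 0 < x ^ n / √(n.factorial : ℝ) := by positivity
  have hexp : ∀ j : ℕ, (j : ℝ) ≤ LL δ R → Real.exp (-(δ * LL δ R)) / (4 * MM R) *
      Real.exp (δ * j) ≤ 1 / (4 * MM R) := by
    intro j hj
    rw [div_mul_eq_mul_div, ← Real.exp_add]
    have : Real.exp (-(δ * LL δ R) + δ * j) ≤ 1 := by
      rw [Real.exp_le_one_iff]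
      nlinarith
    gcongr
  rcases lt_or_ge n m with hlt | hge
  · obtain ⟨j, rfl⟩ : ∃ j, m = n + j := ⟨m - n, by omega⟩
    have hj : 1 ≤ j := by omega
    by_cases h1 : n + j < MM R
    · by_cases h2 : Near δ R (n + j)
      · have h3 : (j : ℝ) ≤ LL δ R := by
          have := h2
          unfold Near at this
          rw [← hn] at this
          push_cast at this
          have e : (n : ℝ) + j - n = j := by ring
          rw [e, abs_of_nonneg (Nat.cast_nonneg j)] at this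
          exact this
        have h4 := ratio_up hx hxR (Real.exp_pos (δ * j)) (up_near hδ hδ2 hR hn2 hj)
        rw [tt, if_pos h1, if_pos h2, ss, if_pos h1]
        calc _ ≤ Real.exp (-(δ * LL δ R)) / (4 * MM R) *
              (Real.exp (δ * j) * (x ^ n / √(n.factorial : ℝ))) := by gcongr
          _ = (Real.exp (-(δ * LL δ R)) / (4 * MM R) * Real.exp (δ * j)) *
              (x ^ n / √(n.factorial : ℝ)) := by ring
          _ ≤ _ := mul_le_mul_of_nonneg_right (hexp j h3) hA.le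
      · have h3 : 3 * δ * R + 1 ≤ (j : ℝ) := by
          unfold Near at h2
          rw [← hn] at h2
          push_cast at h2
          have e : (n : ℝ) + j - n = j := by ring
          rw [e, abs_of_nonneg (Nat.cast_nonneg j), not_le] at h2
          exact h2.le
        have h4 := ratio_up hx hxR one_pos (up_far hδ hδ2 hR hn2 h3)
        rw [tt, if_pos h1, if_neg h2, ss, if_pos h1]
        rw [one_mul] at h4
        gcongr
    · have h5 : 4 * R ≤ (n : ℝ) + j := by
        have : (MM R : ℝ) ≤ ((n + j : ℕ) : ℝ) := by exact_mod_cast not_lt.1 h1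
        push_cast at this
        linarith
      have hb := b_pos
      have h4 := ratio_up hx hxR (pow_pos b_pos (3 * (n + j))) (up_tail hδ2 hR hn2 hnR h5)
      rw [tt, if_neg h1, ss, if_neg h1]
      calc _ ≤ (b⁻¹) ^ (n + j) * (b ^ (3 * (n + j)) * (x ^ n / √(n.factorial : ℝ))) := by
            gcongr
        _ = _ := by
            rw [← mul_assoc]
            congr 1
            rw [pow_mul, ← mul_pow]
            congr 1
            field_simp
  · obtain ⟨j, hj0⟩ : ∃ j, n = m + j := ⟨n - m, by omega⟩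
    have hj : 1 ≤ j := by
      rcases Nat.eq_zero_or_pos j with h | h
      · exfalso; apply hm; omega
      · exact h
    have h1 : m < MM R := by
      have : (m : ℝ) < MM R := by
        calc (m : ℝ) ≤ n := by exact_mod_cast hge
          _ ≤ R := hnR
          _ < 4 * R := by linarith
          _ ≤ _ := hM
      exact_mod_cast this
    have hn1' : ((m + j : ℕ) : ℝ) ≤ (1 - δ) * R := by rw [← hj0]; exact hn1
    have hQ0 : 0 ≤ (1 - δ) ^ 2 * R := by positivity
    have hdist : |(m : ℝ) - n| = j := by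
      rw [hj0]; push_cast
      have e : (m : ℝ) - (m + j) = -j := by ring
      rw [e, abs_neg, abs_of_nonneg (Nat.cast_nonneg j)]
    by_cases h2 : Near δ R m
    · have h3 : (j : ℝ) ≤ LL δ R := by
        have := h2
        unfold Near at this
        rw [← hn, hdist] at this
        exact this
      have h4 := ratio_down hx hQ0 hxQ (Real.exp_pos (δ * j)) (down_near hδ hδ2 hR hn1' hj)
      rw [← hj0] at h4
      rw [tt, if_pos h1, if_pos h2, ss, if_pos h1]
      calc _ ≤ Real.exp (-(δ * LL δ R)) / (4 * MM R) *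
            (Real.exp (δ * j) * (x ^ n / √(n.factorial : ℝ))) := by gcongr
        _ = (Real.exp (-(δ * LL δ R)) / (4 * MM R) * Real.exp (δ * j)) *
            (x ^ n / √(n.factorial : ℝ)) := by ring
        _ ≤ _ := mul_le_mul_of_nonneg_right (hexp j h3) hA.le
    · have h3 : 3 * δ * R + 1 ≤ (j : ℝ) := by
        unfold Near at h2
        rw [← hn, hdist, not_le] at h2
        exact h2.le
      have h4 := ratio_down hx hQ0 hxQ one_pos (down_far hδ hδ2 hR hn1' h3)
      rw [← hj0, one_mul] at h4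
      rw [tt, if_pos h1, if_neg h2, ss, if_pos h1]
      gcongr

lemma ss_nonneg (m : ℕ) : 0 ≤ ss R m := by
  unfold ss
  have := b_pos
  split_ifs <;> positivity

lemma ss_summable : Summable (ss R) := by
  rw [← summable_nat_add_iff (MM R)]
  have h : ∀ i, ss R (i + MM R) = (b ^ 2) ^ MM R * (b ^ 2) ^ i := by
    intro i
    rw [ss, if_neg (by omega), pow_add]; ring
  simp_rw [h]
  exact (summable_geometric_of_lt_one (by have := b_pos; positivity) c_lt).mul_left _

lemma ss_tsum (hR : 12 ≤ R) : ∑' m, ss R m ≤ 1 / 2 := by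
  have hR0 : 0 < R := by linarith
  have hM0 := MM_pos hR0
  have hM : 48 ≤ MM R := by
    have : (48 : ℝ) ≤ MM R := by have := MM_ge (R := R); linarith
    exact_mod_cast this
  rw [← ss_summable.sum_add_tsum_nat_add (MM R)]
  have h1 : ∑ i ∈ Finset.range (MM R), ss R i = 1 / 4 := by
    rw [Finset.sum_congr rfl (g := fun _ => 1 / (4 * (MM R : ℝ))) (fun i hi => by
      rw [ss, if_pos (Finset.mem_range.1 hi)]), Finset.sum_const, Finset.card_range, nsmul_eq_mul]
    field_simp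
  have h2 : ∑' i, ss R (i + MM R) ≤ 1 / 4 := by
    have h : ∀ i, ss R (i + MM R) = (b ^ 2) ^ MM R * (b ^ 2) ^ i := by
      intro i
      rw [ss, if_neg (by omega), pow_add]; ring
    simp_rw [h]
    rw [tsum_mul_left, tsum_geometric_of_lt_one (by have := b_pos; positivity) c_lt]
    have h3 := c_small hM
    have h4 := c_gap
    have h5 : (1 - b ^ 2)⁻¹ ≤ 16 := by
      rw [inv_le_comm₀ (by linarith) (by norm_num)]
      linarith
    have h6 : 0 < 1 - b ^ 2 := by linarith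
    calc (b ^ 2) ^ MM R * (1 - b ^ 2)⁻¹ ≤ 1 / 64 * 16 := by gcongr
      _ = 1 / 4 := by norm_num
  linarith

/-- The Gaussian entire function with coefficients `ξ`. -/
noncomputable def gef (ξ : ℕ → ℂ) (z : ℂ) : ℂ :=
  ∑' n : ℕ, ξ n * z ^ n / ((√(n.factorial : ℝ) : ℝ) : ℂ)

/-- on the box the function has no zeros in the annulus -/
lemma no_zero (hδ : 0 < δ) (hδ2 : δ ≤ 1 / 2) (hR : 12 ≤ R) {ξ : ℕ → ℂ}
    (hξ : ∀ m, ξ m ∈ BB δ R m) {z : ℂ} (hz : 0 < ‖z‖) (hzR : ‖z‖ ^ 2 ≤ R)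
    (hzQ : (1 - δ) ^ 2 * R ≤ ‖z‖ ^ 2) : gef ξ z ≠ 0 := by
  have hR0 : 0 < R := by linarith
  set n := nn δ R with hn
  set A : ℝ := ‖z‖ ^ n / √(n.factorial : ℝ) with hA
  have hA0 : 0 < A := by rw [hA]; positivity
  set w : ℕ → ℂ := fun m => ξ m * z ^ m / ((√(m.factorial : ℝ) : ℝ) : ℂ) with hw
  have hnorm : ∀ m, ‖w m‖ = ‖ξ m‖ * (‖z‖ ^ m / √(m.factorial : ℝ)) := by
    intro m
    rw [hw]
    simp only
    rw [norm_div, norm_mul, norm_pow, Complex.norm_real, Real.norm_eq_abs,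
      abs_of_nonneg (Real.sqrt_nonneg _), mul_div_assoc]
  have hle : ∀ m, m ≠ n → ‖w m‖ ≤ ss R m * A := by
    intro m hm
    have h1 := hξ m
    rw [BB, if_neg hm] at h1
    have h1' : ‖ξ m‖ ≤ tt δ R m := h1
    rw [hnorm]
    refine le_trans ?_ (dom hδ hδ2 hR0 hz hzR hzQ hm)
    gcongr
  have hn1 : A ≤ ‖w n‖ := by
    have h1 := hξ n
    rw [BB, if_pos rfl] at h1
    have h1' : 1 ≤ ‖ξ n‖ := h1
    rw [hnorm]
    calc A = 1 * A := (one_mul A).symm
      _ ≤ _ := by gcongr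
  have hs : Summable (fun m => ss R m * A) := ss_summable.mul_right A
  set w' : ℕ → ℂ := fun m => if m = n then 0 else w m with hw'
  have hle' : ∀ m, ‖w' m‖ ≤ ss R m * A := by
    intro m
    rw [hw']
    by_cases h : m = n
    · simp only [h, if_true, norm_zero]
      exact mul_nonneg (ss_nonneg n) hA0.le
    · simp only [h, if_false]
      exact hle m h
  have hsw' : Summable w' := Summable.of_norm_bounded hs hle'
  have hsplit : gef ξ z = w n + ∑' m, w' m := by
    have h1 : HasSum w' (∑' m, w' m) := hsw'.hasSum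
    have h2 : HasSum (fun m => if m = n then w n else 0) (w n) := hasSum_ite_eq n (w n)
    have h3 := h2.add h1
    have e : (fun m => (if m = n then w n else 0) + w' m) = w := by
      funext m
      rw [hw']
      by_cases h : m = n
      · simp [h]
      · simp [h]
    rw [e] at h3
    exact h3.tsum_eq
  have hbound : ‖∑' m, w' m‖ ≤ A / 2 := by
    calc ‖∑' m, w' m‖ ≤ ∑' m, ss R m * A := tsum_of_norm_bounded hs.hasSum hle'
      _ = (∑' m, ss R m) * A := tsum_mul_right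
      _ ≤ (1 / 2) * A := by
          gcongr
          exact ss_tsum hR
      _ = A / 2 := by ring
  intro h0
  rw [hsplit] at h0
  have h1 : w n = -∑' m, w' m := eq_neg_of_add_eq_zero_left h0
  have h2 : ‖w n‖ ≤ A / 2 := by rw [h1, norm_neg]; exact hbound
  linarith

end thresholds

end Pool.Agent.Y983.Gef
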