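import Mathlib

/-!
The law of independent standard complex Gaussian coefficients; elementary bounds.
-/

open MeasureTheory Filter
open scoped ENNReal NNReal Topology

namespace Pool.Agent.Y983.Gef

/-- The standard complex Gaussian law, with density `exp (-|w|^2) / π`. -/
noncomputable def stdCG : Measure ℂ :=
  (volume : Measure ℂ).withDensity (fun w => ENNReal.ofReal (Real.exp (-‖w‖ ^ 2) / Real.pi))

lemma meas_dens : Measurable (fun w : ℂ => ENNReal.ofReal (Real.exp (-‖w‖ ^ 2) / Real.pi)) := by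
  fun_prop

lemma integral_sq (q : ℝ) (hq : -2 < q) :
    ∫ x : ℂ, ‖x‖ ^ q * (Real.exp (-‖x‖ ^ 2) / Real.pi) = Real.Gamma ((q + 2) / 2) := by
  have h := Complex.integral_rpow_mul_exp_neg_rpow (p := 2) (q := q) (by norm_num) hq
  have e : ∀ x : ℂ, ‖x‖ ^ q * (Real.exp (-‖x‖ ^ 2) / Real.pi) =
      (‖x‖ ^ q * Real.exp (-‖x‖ ^ (2 : ℝ))) * (Real.pi)⁻¹ := by
    intro x
    rw [Real.rpow_two]
    ring
  simp_rw [e]
  rw [integral_mul_const, h]
  field_simp

lemma lintegral_q (q : ℝ) (hq : -2 < q) :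
    ∫⁻ x : ℂ, ENNReal.ofReal (‖x‖ ^ q) ∂stdCG = ENNReal.ofReal (Real.Gamma ((q + 2) / 2)) := by
  have h1 := integral_sq q hq
  have hpos : 0 < Real.Gamma ((q + 2) / 2) := Real.Gamma_pos_of_pos (by linarith)
  have hint : Integrable (fun x : ℂ => ‖x‖ ^ q * (Real.exp (-‖x‖ ^ 2) / Real.pi)) := by
    by_contra hn
    rw [integral_undef hn] at h1
    linarith
  rw [stdCG, lintegral_withDensity_eq_lintegral_mul _ meas_dens (by fun_prop), ← h1,
    ofReal_integral_eq_lintegral_ofReal hint (Eventually.of_forall (fun x => by positivity))]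
  refine lintegral_congr (fun x => ?_)
  rw [Pi.mul_apply, ← ENNReal.ofReal_mul (by positivity), mul_comm]

instance : IsProbabilityMeasure stdCG := by
  constructor
  have h := lintegral_q 0 (by norm_num)
  simpa using h

lemma tail_le {T : ℝ} (hT : 0 < T) :
    stdCG {w : ℂ | T < ‖w‖} ≤ ENNReal.ofReal (1 / T ^ 2) := by
  have h := lintegral_q 2 (by norm_num)
  have h2 : Real.Gamma ((2 + 2) / 2) = 1 := by
    have : ((2 : ℝ) + 2) / 2 = (1 : ℝ) + 1 := by norm_num
    rw [this, Real.Gamma_add_one one_ne_zero, Real.Gamma_one, mul_one]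
  rw [h2] at h
  have hm := mul_meas_ge_le_lintegral₀ (μ := stdCG)
    (f := fun x : ℂ => ENNReal.ofReal (‖x‖ ^ (2 : ℝ))) (by fun_prop) (ENNReal.ofReal (T ^ 2))
  rw [h] at hm
  have hsub : {w : ℂ | T < ‖w‖} ⊆
      {x : ℂ | ENNReal.ofReal (T ^ 2) ≤ ENNReal.ofReal (‖x‖ ^ (2 : ℝ))} := by
    intro w hw
    have hw' : T < ‖w‖ := hw
    have : T ^ 2 ≤ ‖w‖ ^ (2 : ℝ) := by
      rw [Real.rpow_two]
      exact pow_le_pow_left₀ hT.le hw'.le 2
    exact ENNReal.ofReal_le_ofReal this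
  have hT2 : ENNReal.ofReal (T ^ 2) ≠ 0 := by
    rw [ENNReal.ofReal_ne_zero_iff]; positivity
  have h3 : stdCG {w : ℂ | T < ‖w‖} * ENNReal.ofReal (T ^ 2) ≤ 1 := by
    rw [mul_comm]
    refine (mul_le_mul' le_rfl (measure_mono hsub)).trans ?_
    simpa using hm
  rw [one_div, ENNReal.ofReal_inv_of_pos (by positivity)]
  exact ENNReal.le_inv_iff_mul_le.2 h3

lemma lower_of_subset {S : Set ℂ} (hS : MeasurableSet S) {R : ℝ} (hR : S ⊆ Metric.closedBall 0 R) :
    ENNReal.ofReal (Real.exp (-R ^ 2) / Real.pi) * volume S ≤ stdCG S := by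
  rw [stdCG, withDensity_apply _ hS, ← setLIntegral_const]
  refine setLIntegral_mono meas_dens (fun x hx => ENNReal.ofReal_le_ofReal ?_)
  have h1 : ‖x‖ ≤ R := by simpa using hR hx
  have h2 : ‖x‖ ^ 2 ≤ R ^ 2 := pow_le_pow_left₀ (norm_nonneg x) h1 2
  gcongr

lemma ball_lower {t : ℝ} (ht : 0 ≤ t) (ht1 : t ≤ 1) :
    ENNReal.ofReal (Real.exp (-1) * t ^ 2) ≤ stdCG {w : ℂ | ‖w‖ ≤ t} := by
  have hset : {w : ℂ | ‖w‖ ≤ t} = Metric.closedBall (0 : ℂ) t := by
    ext w; simp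
  rw [hset]
  have h := lower_of_subset (S := Metric.closedBall (0 : ℂ) t) (R := 1)
    Metric.isClosed_closedBall.measurableSet (Metric.closedBall_subset_closedBall ht1)
  refine le_trans (le_of_eq ?_) h
  rw [Complex.volume_closedBall, one_pow, ← ENNReal.ofReal_pow ht]
  have hpi : (NNReal.pi : ℝ≥0∞) = ENNReal.ofReal Real.pi := by
    rw [← NNReal.coe_real_pi, ENNReal.ofReal_coe_nnreal]
  rw [hpi, ← ENNReal.ofReal_mul (by positivity), ← ENNReal.ofReal_mul (by positivity)]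
  congr 1
  have := Real.pi_pos
  field_simp

lemma ge_one_lower :
    ENNReal.ofReal (Real.exp (-16)) ≤ stdCG {w : ℂ | 1 ≤ ‖w‖} := by
  have hsub : Metric.closedBall (3 : ℂ) 1 ⊆ {w : ℂ | 1 ≤ ‖w‖} := by
    intro w hw
    have h1 : ‖w - 3‖ ≤ 1 := by simpa [dist_eq_norm] using hw
    have h2 : ‖(3 : ℂ)‖ ≤ ‖w‖ + ‖w - 3‖ := by
      have := norm_sub_norm_le (3 : ℂ) w
      rw [norm_sub_rev] at this
      linarith
    have h3 : ‖(3 : ℂ)‖ = 3 := by simp
    simp only [Set.mem_setOf_eq]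
    linarith
  have hsub2 : Metric.closedBall (3 : ℂ) 1 ⊆ Metric.closedBall 0 4 := by
    intro w hw
    have h1 : ‖w - 3‖ ≤ 1 := by simpa [dist_eq_norm] using hw
    have h2 : ‖w‖ ≤ ‖w - 3‖ + ‖(3 : ℂ)‖ := by
      have := norm_add_le (w - 3) 3
      simpa using this
    have h3 : ‖(3 : ℂ)‖ = 3 := by simp
    simp only [Metric.mem_closedBall, dist_zero_right]
    linarith
  have h := lower_of_subset (S := Metric.closedBall (3 : ℂ) 1) (R := 4)
    Metric.isClosed_closedBall.measurableSet hsub2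
  refine le_trans (le_trans (le_of_eq ?_) h) (measure_mono hsub)
  rw [Complex.volume_closedBall, ENNReal.ofReal_one, one_pow, one_mul]
  have hpi : (NNReal.pi : ℝ≥0∞) = ENNReal.ofReal Real.pi := by
    rw [← NNReal.coe_real_pi, ENNReal.ofReal_coe_nnreal]
  rw [hpi, ← ENNReal.ofReal_mul (by positivity)]
  congr 1
  have := Real.pi_pos
  field_simp
  norm_num

/-- The law of a sequence of independent standard complex Gaussian variables. -/
noncomputable def coeffLaw : Measure (ℕ → ℂ) := Measure.infinitePi (fun _ : ℕ => stdCG)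

instance : IsProbabilityMeasure coeffLaw := by
  unfold coeffLaw; infer_instance

/-- product lower bound for an infinite box -/
lemma box_lower (B : ℕ → Set ℂ) (hB : ∀ m, MeasurableSet (B m)) (q : ℕ → ℝ) (hq0 : ∀ m, 0 ≤ q m)
    (hq : ∀ m, ENNReal.ofReal (q m) ≤ stdCG (B m)) (c : ℝ)
    (hc : ∀ k, c ≤ ∏ m ∈ Finset.range k, q m) :
    ENNReal.ofReal c ≤ coeffLaw {ξ | ∀ m, ξ m ∈ B m} := by
  have hset : {ξ : ℕ → ℂ | ∀ m, ξ m ∈ B m} =
      ⋂ k : ℕ, Set.pi (Finset.range k : Set ℕ) B := by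
    ext ξ
    simp only [Set.mem_setOf_eq, Set.mem_iInter, Set.mem_pi, Finset.coe_range, Set.mem_Iio]
    exact ⟨fun h k m _ => h m, fun h m => h (m + 1) m (Nat.lt_succ_self m)⟩
  have hmeas : ∀ k : ℕ, MeasurableSet (Set.pi (Finset.range k : Set ℕ) B) := fun k =>
    MeasurableSet.pi (Finset.countable_toSet _) (fun m _ => hB m)
  have hanti : Antitone (fun k : ℕ => Set.pi (Finset.range k : Set ℕ) B) := by
    intro k l hkl ξ hξ m hm
    apply hξ m
    simp only [Finset.coe_range, Set.mem_Iio] at hm ⊢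
    omega
  have hlim := tendsto_measure_iInter_atTop (μ := coeffLaw)
    (fun k => (hmeas k).nullMeasurableSet) hanti ⟨0, measure_ne_top _ _⟩
  rw [hset]
  refine ge_of_tendsto' hlim (fun k => ?_)
  simp only [Function.comp]
  rw [coeffLaw, Measure.infinitePi_pi _ (fun i _ => hB i)]
  calc ENNReal.ofReal c ≤ ENNReal.ofReal (∏ m ∈ Finset.range k, q m) :=
        ENNReal.ofReal_le_ofReal (hc k)
    _ = ∏ m ∈ Finset.range k, ENNReal.ofReal (q m) :=
        ENNReal.ofReal_prod_of_nonneg (fun m _ => hq0 m)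
    _ ≤ _ := Finset.prod_le_prod' (fun m _ => hq m)

end Pool.Agent.Y983.Gef
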