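import Pool.Agent.Y983.GefDom

/-!
The probability of the box, and the upper bound for the hole exponent on thin annuli.
-/

open MeasureTheory Filter
open scoped ENNReal NNReal Topology

namespace Pool.Agent.Y983.Gef

section prob

variable (δ R : ℝ)

/-- a lower bound for the probability of one coordinate outside the window -/
noncomputable def vv : ℝ := Real.exp (-16) / (4 * MM R) ^ 2

/-- the additional factor in the window -/
noncomputable def kk : ℝ := Real.exp (-(δ * LL δ R)) ^ 2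

/-- the number of degrees in the window -/
noncomputable def NN : ℕ := 2 * ⌊LL δ R⌋₊ + 1

open Classical in
noncomputable def qq (m : ℕ) : ℝ :=
  if m < MM R then (if Near δ R m then vv R * kk δ R else vv R) else 1 - (b ^ 2) ^ m

variable {δ R}

lemma vv_pos (hR : 0 < R) : 0 < vv R := by
  have := MM_pos hR
  unfold vv; positivity

lemma MM_one (hR : 12 ≤ R) : (48 : ℝ) ≤ MM R := by
  have := MM_ge (R := R); linarith

lemma vv_le (hR : 12 ≤ R) : vv R ≤ 1 := by
  have h := MM_one hR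
  unfold vv
  rw [div_le_one (by positivity)]
  calc Real.exp (-16) ≤ 1 := by rw [Real.exp_le_one_iff]; norm_num
    _ ≤ (4 * (MM R : ℝ)) ^ 2 := by nlinarith

lemma kk_pos : 0 < kk δ R := by unfold kk; positivity

lemma LL_nonneg (hδ : 0 < δ) (hR : 0 < R) : 0 ≤ LL δ R := by unfold LL; positivity

lemma kk_le (hδ : 0 < δ) (hR : 0 < R) : kk δ R ≤ 1 := by
  unfold kk
  have h : Real.exp (-(δ * LL δ R)) ≤ 1 := by
    rw [Real.exp_le_one_iff]
    have := LL_nonneg hδ hR
    nlinarith
  exact pow_le_one₀ (Real.exp_pos _).le h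

lemma c_pow_le {m : ℕ} : (b ^ 2) ^ m ≤ 1 :=
  pow_le_one₀ (by have := b_pos; positivity) c_lt.le

lemma qq_nonneg (hR : 12 ≤ R) (m : ℕ) : 0 ≤ qq δ R m := by
  have h1 := vv_pos (R := R) (by linarith)
  have h2 := kk_pos (δ := δ) (R := R)
  have h3 := c_pow_le (m := m)
  unfold qq
  split_ifs
  · positivity
  · positivity
  · linarith

lemma qq_le (hδ : 0 < δ) (hR : 12 ≤ R) (m : ℕ) : qq δ R m ≤ 1 := by
  have hR0 : 0 < R := by linarith
  have h1 := vv_le hR
  have h1' := vv_pos hR0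
  have h2 := kk_le hδ hR0
  have h2' := kk_pos (δ := δ) (R := R)
  have h3 : 0 ≤ (b ^ 2) ^ m := by have := b_pos; positivity
  unfold qq
  split_ifs
  · nlinarith
  · exact h1
  · linarith

lemma measurable_BB (m : ℕ) : MeasurableSet (BB δ R m) := by
  unfold BB
  split_ifs
  · exact measurableSet_le measurable_const measurable_norm
  · exact measurableSet_le measurable_norm measurable_const

lemma qq_le_BB (hδ : 0 < δ) (hδ2 : δ ≤ 1 / 2) (hR : 12 ≤ R) (m : ℕ) :
    ENNReal.ofReal (qq δ R m) ≤ stdCG (BB δ R m) := by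
  have hR0 : 0 < R := by linarith
  have hM := MM_one hR
  have hLL := LL_nonneg hδ hR0
  have hv := vv_pos hR0
  have hk := kk_pos (δ := δ) (R := R)
  have hk1 := kk_le hδ hR0
  by_cases hm : m = nn δ R
  · rw [BB, if_pos hm]
    refine le_trans (ENNReal.ofReal_le_ofReal ?_) ge_one_lower
    have hlt : m < MM R := by
      have h1 := nn_le (δ := δ) hδ2 hR0
      have : (m : ℝ) < MM R := by
        rw [hm]
        calc (nn δ R : ℝ) ≤ (1 - δ) * R := h1
          _ < 4 * R := by nlinarith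
          _ ≤ _ := MM_ge
      exact_mod_cast this
    have hv2 : vv R ≤ Real.exp (-16) := by
      unfold vv
      exact div_le_self (Real.exp_pos _).le (by nlinarith)
    unfold qq
    rw [if_pos hlt]
    split_ifs
    · nlinarith
    · exact hv2
  · rw [BB, if_neg hm]
    have he : Real.exp (-16) ≤ Real.exp (-1) := Real.exp_le_exp.2 (by norm_num)
    by_cases h1 : m < MM R
    · by_cases h2 : Near δ R m
      · rw [qq, if_pos h1, if_pos h2, tt, if_pos h1, if_pos h2]
        have ht1 : Real.exp (-(δ * LL δ R)) / (4 * MM R) ≤ 1 := by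
          rw [div_le_one (by positivity)]
          calc Real.exp (-(δ * LL δ R)) ≤ 1 := by
                rw [Real.exp_le_one_iff]; nlinarith
            _ ≤ 4 * (MM R : ℝ) := by linarith
        refine le_trans (ENNReal.ofReal_le_ofReal ?_) (ball_lower (by positivity) ht1)
        unfold vv kk
        calc Real.exp (-16) / (4 * (MM R : ℝ)) ^ 2 * Real.exp (-(δ * LL δ R)) ^ 2
            = Real.exp (-16) * (Real.exp (-(δ * LL δ R)) / (4 * MM R)) ^ 2 := by
              field_simp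
          _ ≤ _ := by gcongr
      · rw [qq, if_pos h1, if_neg h2, tt, if_pos h1, if_neg h2]
        have ht1 : 1 / (4 * (MM R : ℝ)) ≤ 1 := by
          rw [div_le_one (by positivity)]; linarith
        refine le_trans (ENNReal.ofReal_le_ofReal ?_) (ball_lower (by positivity) ht1)
        unfold vv
        calc Real.exp (-16) / (4 * (MM R : ℝ)) ^ 2
            = Real.exp (-16) * (1 / (4 * (MM R : ℝ))) ^ 2 := by field_simp
          _ ≤ _ := by gcongr
    · rw [qq, if_neg h1, tt, if_neg h1]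
      have hb := b_pos
      have hT : 0 < (b⁻¹) ^ m := by positivity
      have h3 := tail_le hT
      have hcompl : {w : ℂ | ‖w‖ ≤ (b⁻¹) ^ m} = {w : ℂ | (b⁻¹) ^ m < ‖w‖}ᶜ := by
        ext w
        simp only [Set.mem_compl_iff, Set.mem_setOf_eq, not_lt]
      have hmeas : MeasurableSet {w : ℂ | (b⁻¹) ^ m < ‖w‖} :=
        measurableSet_lt measurable_const measurable_norm
      rw [hcompl, prob_compl_eq_one_sub hmeas, ENNReal.ofReal_sub _ (by positivity),
        ENNReal.ofReal_one]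
      apply tsub_le_tsub_left
      refine h3.trans (ENNReal.ofReal_le_ofReal (le_of_eq ?_))
      rw [one_div, ← pow_mul, ← inv_pow, inv_inv, ← pow_mul]
      congr 1
      ring

lemma prod_one_sub_ge (a : ℕ → ℝ) (ha0 : ∀ i, 0 ≤ a i) (ha1 : ∀ i, a i ≤ 1) (k : ℕ) :
    1 - ∑ i ∈ Finset.range k, a i ≤ ∏ i ∈ Finset.range k, (1 - a i) := by
  induction k with
  | zero => simp
  | succ k ih =>
    rw [Finset.sum_range_succ, Finset.prod_range_succ]
    have h1 : ∏ i ∈ Finset.range k, (1 - a i) ≤ 1 :=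
      Finset.prod_le_one (fun i _ => by linarith [ha1 i]) (fun i _ => by linarith [ha0 i])
    nlinarith [ha0 k, ha1 k]

open Classical in
lemma card_near (hδ : 0 < δ) (hR : 0 < R) (K : ℕ) :
    (Finset.filter (fun m => Near δ R m) (Finset.range K)).card ≤ NN δ R := by
  have hLL := LL_nonneg hδ hR
  have hsub : Finset.filter (fun m => Near δ R m) (Finset.range K) ⊆
      Finset.Icc (nn δ R - ⌊LL δ R⌋₊) (nn δ R + ⌊LL δ R⌋₊) := by
    intro m hm
    rw [Finset.mem_filter] at hm
    have h := hm.2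
    unfold Near at h
    rw [abs_le] at h
    rw [Finset.mem_Icc]
    constructor
    · rcases le_total (nn δ R) m with h1 | h1
      · omega
      · have h2 : ((nn δ R - m : ℕ) : ℝ) ≤ LL δ R := by
          rw [Nat.cast_sub h1]; linarith [h.1]
        have h3 := (Nat.le_floor_iff hLL).2 h2
        omega
    · rcases le_total m (nn δ R) with h1 | h1
      · omega
      · have h2 : ((m - nn δ R : ℕ) : ℝ) ≤ LL δ R := by
          rw [Nat.cast_sub h1]; linarith [h.2]
        have h3 := (Nat.le_floor_iff hLL).2 h2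
        omega
  refine (Finset.card_le_card hsub).trans ?_
  rw [Nat.card_Icc]
  unfold NN
  omega

lemma prod_qq (hδ : 0 < δ) (hR : 12 ≤ R) (k : ℕ) :
    vv R ^ MM R * kk δ R ^ NN δ R * (1 / 2) ≤ ∏ m ∈ Finset.range k, qq δ R m := by
  classical
  have hR0 : 0 < R := by linarith
  have hv := vv_pos hR0
  have hk := kk_pos (δ := δ) (R := R)
  have hk1 := kk_le hδ hR0
  have hb := b_pos
  have hM : 48 ≤ MM R := by exact_mod_cast MM_one hR
  -- extend the range
  have h1 : ∏ m ∈ Finset.range (MM R + k), qq δ R m ≤ ∏ m ∈ Finset.range k, qq δ R m := by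
    rw [Nat.add_comm, Finset.prod_range_add]
    refine mul_le_of_le_one_right (Finset.prod_nonneg (fun m _ => qq_nonneg hR m)) ?_
    exact Finset.prod_le_one (fun m _ => qq_nonneg hR _) (fun m _ => qq_le hδ hR _)
  refine le_trans ?_ h1
  rw [Finset.prod_range_add]
  have h2 : vv R ^ MM R * kk δ R ^ NN δ R ≤ ∏ m ∈ Finset.range (MM R), qq δ R m := by
    have e : ∀ m ∈ Finset.range (MM R), qq δ R m =
        vv R * (if Near δ R m then kk δ R else 1) := by
      intro m hm
      rw [qq, if_pos (Finset.mem_range.1 hm)]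
      split_ifs <;> simp
    rw [Finset.prod_congr rfl e, Finset.prod_mul_distrib, Finset.prod_const, Finset.card_range]
    apply mul_le_mul_of_nonneg_left _ (by positivity)
    rw [← Finset.prod_filter, Finset.prod_const]
    exact pow_le_pow_of_le_one hk.le hk1 (card_near hδ hR0 _)
  have h3 : 1 / 2 ≤ ∏ m ∈ Finset.range k, qq δ R (MM R + m) := by
    have e : ∀ m ∈ Finset.range k, qq δ R (MM R + m) =
        1 - (b ^ 2) ^ MM R * (b ^ 2) ^ m := by
      intro m _
      rw [qq, if_neg (by omega), pow_add]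
    rw [Finset.prod_congr rfl e]
    refine le_trans ?_ (prod_one_sub_ge _ (fun i => by positivity) (fun i => ?_) k)
    · rw [← Finset.mul_sum]
      have h4 : ∑ i ∈ Finset.range k, (b ^ 2) ^ i ≤ (1 - b ^ 2)⁻¹ := by
        have hs := summable_geometric_of_lt_one (r := b ^ 2) (by positivity) c_lt
        have := hs.sum_le_tsum (Finset.range k) (fun i _ => by positivity)
        rwa [tsum_geometric_of_lt_one (by positivity) c_lt] at this
      have h5 : (1 - b ^ 2)⁻¹ ≤ 16 := by
        have := c_gap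
        rw [inv_le_comm₀ (by linarith) (by norm_num)]
        linarith
      have h6 := c_small hM
      have h7 : (b ^ 2) ^ MM R * ∑ i ∈ Finset.range k, (b ^ 2) ^ i ≤ 1 / 64 * 16 := by
        gcongr
        exact h4.trans h5
      linarith
    · rw [← pow_add]; exact c_pow_le
  calc vv R ^ MM R * kk δ R ^ NN δ R * (1 / 2) ≤
      (∏ m ∈ Finset.range (MM R), qq δ R m) * ∏ m ∈ Finset.range k, qq δ R (MM R + m) :=
        mul_le_mul h2 h3 (by norm_num) (Finset.prod_nonneg (fun m _ => qq_nonneg hR m))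
    _ = _ := rfl

end prob

/-- The hole exponent `p_{H,K}(f;r) = - log P(f(z) ≠ 0 for all z ∈ rK)`. -/
noncomputable def holeExponent (K : Set ℂ) (r : ℝ) : ℝ :=
  -Real.log ((coeffLaw {ξ | ∀ z ∈ K, gef ξ ((r : ℂ) * z) ≠ 0}).toReal)

theorem holeExponent_le {δ : ℝ} (hδ : 0 < δ) (hδ2 : δ ≤ 1 / 2) {K : Set ℂ}
    (hK : ∀ z ∈ K, 1 - δ ≤ ‖z‖ ∧ ‖z‖ ≤ 1) {r : ℝ} (hr : 4 ≤ r) :
    holeExponent K r ≤ MM (r ^ 2) * (16 + 2 * Real.log (4 * MM (r ^ 2))) +
      NN δ (r ^ 2) * (2 * (δ * LL δ (r ^ 2))) + Real.log 2 := by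
  set R := r ^ 2 with hRdef
  have hR : 12 ≤ R := by rw [hRdef]; nlinarith
  have hR0 : 0 < R := by linarith
  have hr0 : 0 < r := by linarith
  have hM := MM_one hR
  set c : ℝ := vv R ^ MM R * kk δ R ^ NN δ R * (1 / 2) with hc
  have hv := vv_pos hR0
  have hk := kk_pos (δ := δ) (R := R)
  have hc0 : 0 < c := by rw [hc]; positivity
  have hbox := box_lower (BB δ R) measurable_BB (qq δ R) (qq_nonneg hR)
    (qq_le_BB hδ hδ2 hR) c (fun k => prod_qq hδ hR k)
  have hsub : {ξ : ℕ → ℂ | ∀ m, ξ m ∈ BB δ R m} ⊆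
      {ξ | ∀ z ∈ K, gef ξ ((r : ℂ) * z) ≠ 0} := by
    intro ξ hξ z hz
    obtain ⟨h1, h2⟩ := hK z hz
    have hn : ‖(r : ℂ) * z‖ = r * ‖z‖ := by
      rw [norm_mul, Complex.norm_real, Real.norm_eq_abs, abs_of_pos hr0]
    have hz0 : 0 < ‖z‖ := by linarith
    apply no_zero hδ hδ2 hR hξ
    · rw [hn]; positivity
    · rw [hn, mul_pow, hRdef]
      calc r ^ 2 * ‖z‖ ^ 2 ≤ r ^ 2 * 1 ^ 2 := by gcongr
        _ = r ^ 2 := by ring
    · rw [hn, mul_pow, hRdef]
      have h3 : (1 - δ) ^ 2 ≤ ‖z‖ ^ 2 := pow_le_pow_left₀ (by linarith) h1 2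
      nlinarith [sq_nonneg r]
  have h1 : c ≤ (coeffLaw {ξ | ∀ z ∈ K, gef ξ ((r : ℂ) * z) ≠ 0}).toReal := by
    rw [← ENNReal.ofReal_le_iff_le_toReal (measure_ne_top _ _)]
    exact hbox.trans (measure_mono hsub)
  have h2 : holeExponent K r ≤ -Real.log c := by
    unfold holeExponent
    have := Real.log_le_log hc0 h1
    linarith
  refine h2.trans (le_of_eq ?_)
  have e1 : Real.log (vv R) = -16 - 2 * Real.log (4 * MM R) := by
    unfold vv
    rw [Real.log_div (Real.exp_pos _).ne' (by positivity), Real.log_exp, Real.log_pow]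
    push_cast; ring
  have e2 : Real.log (kk δ R) = -(2 * (δ * LL δ R)) := by
    unfold kk
    rw [Real.log_pow, Real.log_exp]; push_cast; ring
  rw [hc, Real.log_mul (by positivity) (by norm_num), Real.log_mul (by positivity) (by positivity),
    Real.log_pow, Real.log_pow, e1, e2, one_div, Real.log_inv]
  ring

/-- **Upper bound for the hole exponent of a subset of a thin annulus.** -/
theorem holeExponent_le' {δ : ℝ} (hδ : 0 < δ) (hδ2 : δ ≤ 1 / 2) {K : Set ℂ}
    (hK : ∀ z ∈ K, 1 - δ ≤ ‖z‖ ∧ ‖z‖ ≤ 1) {r : ℝ} (hr : 1000 / δ ^ 3 ≤ r) :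
    holeExponent K r ≤ 40 * δ ^ 3 * r ^ 4 := by
  have hd3 : 0 < δ ^ 3 := by positivity
  have h1 : 1000 ≤ δ ^ 3 * r := by
    rw [div_le_iff₀ hd3] at hr; linarith
  have hd8 : δ ^ 3 ≤ 1 / 8 := by
    calc δ ^ 3 ≤ (1 / 2) ^ 3 := pow_le_pow_left₀ hδ.le hδ2 3
      _ = 1 / 8 := by norm_num
  have hr0 : 0 < r := lt_of_lt_of_le (by positivity) hr
  have hr8 : 8000 ≤ r := by nlinarith
  have h := holeExponent_le hδ hδ2 hK (r := r) (by linarith)
  refine h.trans ?_
  set R := r ^ 2 with hRdef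
  have hR0 : 0 < R := by positivity
  have hRbig : 1 ≤ R := by rw [hRdef]; nlinarith
  have hM1 := MM_pos hR0
  have hM5 : (MM R : ℝ) ≤ 5 * R := by
    have := Nat.ceil_lt_add_one (a := 4 * R) (by positivity)
    have h2 : (MM R : ℝ) < 4 * R + 1 := this
    linarith
  have hM48 : (1 : ℝ) ≤ 4 * MM R := by
    have := MM_ge (R := R); linarith
  have hlog : Real.log (4 * MM R) ≤ 10 * r := by
    have e : 4 * (MM R : ℝ) ≤ (5 * r) ^ 2 := by
      calc 4 * (MM R : ℝ) ≤ 4 * (5 * R) := by linarith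
        _ = 20 * r ^ 2 := by rw [hRdef]; ring
        _ ≤ _ := by nlinarith
    calc Real.log (4 * MM R) ≤ Real.log ((5 * r) ^ 2) := Real.log_le_log (by positivity) e
      _ = 2 * Real.log (5 * r) := by rw [Real.log_pow]; norm_num
      _ ≤ 2 * (5 * r - 1) := by
          have := Real.log_le_sub_one_of_pos (x := 5 * r) (by positivity)
          linarith
      _ ≤ 10 * r := by linarith
  have hlog0 : 0 ≤ Real.log (4 * MM R) := Real.log_nonneg hM48
  have t1 : (MM R : ℝ) * (16 + 2 * Real.log (4 * MM R)) ≤ 110 * r ^ 3 := by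
    calc (MM R : ℝ) * (16 + 2 * Real.log (4 * MM R)) ≤ (5 * R) * (22 * r) := by
          apply mul_le_mul hM5 (by linarith) (by linarith) (by positivity)
      _ = 110 * r ^ 3 := by rw [hRdef]; ring
  have hx : 1000 * r ≤ δ * R := by
    have h3 : δ ^ 3 ≤ δ := by nlinarith [sq_nonneg δ, mul_pos hδ hδ]
    have h4 : 1000 * r ≤ (δ ^ 3 * r) * r := by nlinarith
    calc 1000 * r ≤ (δ ^ 3 * r) * r := h4
      _ = δ ^ 3 * R := by rw [hRdef]; ring
      _ ≤ δ * R := by gcongr
  have hx100 : 100 ≤ δ * R := by nlinarith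
  have hLL : LL δ R ≤ 3.01 * (δ * R) := by
    unfold LL; linarith
  have hLL0 : 0 ≤ LL δ R := LL_nonneg hδ hR0
  have hNN : (NN δ R : ℝ) ≤ 2 * LL δ R + 1 := by
    unfold NN
    push_cast
    have := Nat.floor_le hLL0
    linarith
  have t2 : (NN δ R : ℝ) * (2 * (δ * LL δ R)) ≤ 37 * δ ^ 3 * R ^ 2 := by
    have e1 : 2 * LL δ R + 1 ≤ 6.04 * (δ * R) := by
      nlinarith
    calc (NN δ R : ℝ) * (2 * (δ * LL δ R)) ≤ (6.04 * (δ * R)) * (2 * (δ * (3.01 * (δ * R)))) := by
          apply mul_le_mul (hNN.trans e1) _ (by positivity) (by positivity)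
          gcongr
      _ = (6.04 * 2 * 3.01) * δ ^ 3 * R ^ 2 := by ring
      _ ≤ _ := by
          have : (0 : ℝ) ≤ δ ^ 3 * R ^ 2 := by positivity
          nlinarith
  have e4 : R ^ 2 = r ^ 4 := by rw [hRdef]; ring
  have t3 : 1000 * r ^ 3 ≤ δ ^ 3 * r ^ 4 := by
    have : (0 : ℝ) ≤ r ^ 3 := by positivity
    calc 1000 * r ^ 3 ≤ (δ ^ 3 * r) * r ^ 3 := by gcongr
      _ = _ := by ring
  have t4 : Real.log 2 ≤ r ^ 3 := by
    have h5 : Real.log 2 ≤ 1 := by
      have := Real.log_le_sub_one_of_pos (x := 2) (by norm_num)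
      linarith
    have h6 : (1 : ℝ) ≤ r ^ 3 := one_le_pow₀ (by linarith)
    linarith
  rw [e4] at t2
  have hr3 : (0 : ℝ) ≤ r ^ 3 := by positivity
  linarith

end Pool.Agent.Y983.Gef
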